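import Pool.Agent.Helper236.PavMain

namespace Pool.Agent.Results.MP_fdd68d_co.Main

open Set Pool.Agent.Helper236 Pool.Agent.Helper236.Tug

/-- a simple matroid of rank at most three is paving -/
theorem paving_of_rank_le_three {α : Type} {M : Matroid α} (hs : IsSimple M)
    (hr : rk M M.E ≤ 3) (hfin : M.Finite) : IsPaving M := by
  intro C hC
  refine hr.trans ?_
  by_contra hlt
  have hCf : C.Finite := M.ground_finite.subset hC.subset_ground
  obtain ⟨x, hx⟩ := hC.nonempty
  apply hC.not_indep
  by_cases hxy : ∃ y ∈ C, y ≠ x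
  · obtain ⟨y, hy, hyx⟩ := hxy
    have h8 : ({x, y} : Set α) ⊆ C := by
      rintro z (rfl | rfl) <;> assumption
    have h9 : ({x, y} : Set α) = C := by
      apply Set.eq_of_subset_of_ncard_le h8 _ hCf
      rw [ncard_pair (Ne.symm hyx)]
      omega
    rw [← h9]
    exact hs x (hC.subset_ground hx) y (hC.subset_ground hy)
  · push Not at hxy
    have h8 : C ⊆ {x, x} := by
      intro y hy
      left
      exact hxy y hy
    exact (hs x (hC.subset_ground hx) x (hC.subset_ground hx)).subset h8

/-- Tugger's statement for tangential 1-blocks of rank at most three and for all paving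
tangential 1-blocks of arbitrary rank, over every finite field. -/
theorem result (F : Type) [Field F] [Finite F] {α : Type} (M : Matroid α)
    (hM : IsTangentialBlock F 1 M) (hp : rk M M.E ≤ 3 ∨ IsPaving M) :
    ∃ N : Matroid α, N.IsMinor M ∧ (IsLine (Nat.card F + 1) N ∨ IsK4 N ∨ IsWhirl3 N) := by
  have hp' : IsPaving M := by
    rcases hp with hp | hp
    · exact paving_of_rank_le_three hM.1.2.1 hp hM.1.1
    · exact hp
  have h2 := rank_ge_two hM
  by_cases h3 : 3 ≤ rk M M.E
  · obtain ⟨N, hN, hN'⟩ := paving_rank_ge_three hM hp' h3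
    exact ⟨N, hN, Or.inr hN'⟩
  · exact ⟨M, Matroid.IsMinor.refl, Or.inl (paving_rank_two hM (by omega))⟩

end Pool.Agent.Results.MP_fdd68d_co.Main
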